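import Mathlib
import Pool.Agent.H762R3.CF.Final3

/-!
Conflict-free colourings of `r`-uniform hypergraphs of maximum degree `D` with `D` colours, for
all `r ≥ 5` and all `D ≥ 41`.
-/

namespace Pool.Agent.Results.MP_dcfb8f_co.AllFrom41

theorem result :
    ∀ r D : ℕ, 5 ≤ r → 41 ≤ D →
      ∀ (V : Type) [Fintype V] [DecidableEq V] (E : Finset (Finset V)),
        (∀ e ∈ E, e.card = r) →
        (∀ v : V, (E.filter (fun e => v ∈ e)).card ≤ D) →
        ∃ c : V → Fin D, ∀ e ∈ E, ∃ v ∈ e, ∀ w ∈ e, c w = c v → w = v := by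
  intro r D hr hD41 V _ _ E hU hD
  have hgood : Pool.Agent.H762R3.CF.Good r D :=
    Pool.Agent.H762R3.CF.good_mono (Pool.Agent.H762R3.CF.good_41 r hr) hD41
  classical
  let φ : V ≃ Fin (Fintype.card V) := Fintype.equivFin V
  obtain ⟨c, hc⟩ := hgood (Fintype.card V) (E.image (fun e => e.map φ.toEmbedding)) (by
      intro f hf
      obtain ⟨e, he, rfl⟩ := Finset.mem_image.1 hf
      rw [Finset.card_map]
      exact hU e he) (by
      intro v
      have hsub : (E.image (fun e => e.map φ.toEmbedding)).filter (fun e => v ∈ e) ⊆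
          (E.filter (fun e => φ.symm v ∈ e)).image (fun e => e.map φ.toEmbedding) := by
        intro f hf
        rw [Finset.mem_filter] at hf
        obtain ⟨e, he, rfl⟩ := Finset.mem_image.1 hf.1
        refine Finset.mem_image.2 ⟨e, Finset.mem_filter.2 ⟨he, ?_⟩, rfl⟩
        obtain ⟨u, hu, huv⟩ := Finset.mem_map.1 hf.2
        have : φ.symm v = u := by
          rw [← huv]
          simp
        rw [this]
        exact hu
      exact (Finset.card_le_card hsub).trans (Finset.card_image_le.trans (hD (φ.symm v))))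
  refine ⟨fun v => c (φ v), ?_⟩
  intro e he
  obtain ⟨x, hx, hx2⟩ := hc (e.map φ.toEmbedding) (Finset.mem_image_of_mem _ he)
  obtain ⟨v, hv, rfl⟩ := Finset.mem_map.1 hx
  refine ⟨v, hv, ?_⟩
  intro w hw hcw
  have := hx2 (φ w) (Finset.mem_map_of_mem φ.toEmbedding hw) hcw
  exact φ.injective this

end Pool.Agent.Results.MP_dcfb8f_co.AllFrom41
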